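import Pool.Agent.W_MP_fefad7_co.Bias

/-!
# Client-Waiter k-SAT game: first moment lower bound for the threshold bias

For every fixed `k ≥ 2` the normalised inverse threshold bias of the Client-Waiter game satisfies
`limsup_n (1/n) * C(n,k) * (b^CW)⁻¹ / ln 2 ≤ 1 / (2^k * ln (2^k / (2^k - 1))) < 1`,
which is the upper half of the conjectured asymptotics.
-/

set_option autoImplicit false

namespace Pool.Agent.Results.MP_fefad7_co.FirstMomentCW

open Filter Pool.Agent.W_MP_fefad7_co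

theorem result (k : ℕ) (hk : 2 ≤ k) :
    ((2 : ℝ) ^ k * Real.log ((2 : ℝ) ^ k / ((2 : ℝ) ^ k - 1)))⁻¹ < 1 ∧
    (∀ n : ℕ, 1 ≤ biasCW n k ∧ WaiterWinsCW (biasCW n k) (board k n) ∅) ∧
    ∀ ε : ℝ, 0 < ε → ∀ᶠ n : ℕ in atTop,
      1 / (n : ℝ) * (n.choose k : ℝ) * (biasCW n k : ℝ)⁻¹ / Real.log 2 ≤
        ((2 : ℝ) ^ k * Real.log ((2 : ℝ) ^ k / ((2 : ℝ) ^ k - 1)))⁻¹ + ε :=
  ⟨const_lt_one (by omega), fun n => biasCW_spec k n (by omega),
    fun ε hε => biasCW_first_moment k hk ε hε⟩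

end Pool.Agent.Results.MP_fefad7_co.FirstMomentCW
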