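import Pool.Agent.W_MP_fefad7_co.CWSharp.BiasCW

/-!
# Waiter-Client and Client-Waiter k-SAT games: the sharp threshold biases

For both games the normalised inverse threshold bias is `1 + o_k(1)`: for every `ε > 0` and all
large `k`, one has `|(1/n) * C(n,k) * b⁻¹ / ln 2 - 1| ≤ ε` for all large `n`.
-/

set_option autoImplicit false

namespace Pool.Agent.Results.MP_fefad7_co.SharpBoth

open Filter Topology Pool.Agent.W_MP_fefad7_co

/-- A family of sequences that are eventually within `ε` of `1` has limits tending to `1`. -/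
lemma tendsto_one_of (F : ℕ → ℕ → ℝ)
    (h : ∀ ε : ℝ, 0 < ε → ∃ k0 : ℕ, ∀ k ≥ k0, ∀ᶠ n : ℕ in atTop, |F k n - 1| ≤ ε)
    (L : ℕ → ℝ) (hL : ∀ᶠ k : ℕ in atTop, Tendsto (F k) atTop (𝓝 (L k))) :
    Tendsto L atTop (𝓝 1) := by
  rw [Metric.tendsto_atTop]
  intro ε hε
  obtain ⟨k0, hk0⟩ := h (ε / 2) (by positivity)
  obtain ⟨k1, hk1⟩ := eventually_atTop.mp hL
  refine ⟨max k0 k1, fun k hk => ?_⟩
  have h1 := hk0 k (le_trans (le_max_left _ _) hk)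
  have h2 := ((hk1 k (le_trans (le_max_right _ _) hk)).sub_const 1).abs
  have h3 : |L k - 1| ≤ ε / 2 := le_of_tendsto h2 h1
  rw [Real.dist_eq]
  linarith

theorem result :
    -- the threshold biases are well defined
    (∀ k n : ℕ, 1 ≤ biasWC n k ∧ ClientWinsWC (biasWC n k) (board k n) ∅) ∧
    (∀ k n : ℕ, 1 ≤ k → 1 ≤ biasCW n k ∧ WaiterWinsCW (biasCW n k) (board k n) ∅) ∧
    -- Waiter-Client game
    (∀ ε : ℝ, 0 < ε → ∃ k0 : ℕ, ∀ k ≥ k0, ∀ᶠ n : ℕ in atTop,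
      |1 / (n : ℝ) * (n.choose k : ℝ) * (biasWC n k : ℝ)⁻¹ / Real.log 2 - 1| ≤ ε) ∧
    -- Client-Waiter game
    (∀ ε : ℝ, 0 < ε → ∃ k0 : ℕ, ∀ k ≥ k0, ∀ᶠ n : ℕ in atTop,
      |1 / (n : ℝ) * (n.choose k : ℝ) * (biasCW n k : ℝ)⁻¹ / Real.log 2 - 1| ≤ ε) ∧
    -- the outer limits are one as soon as the inner limits exist
    (∀ L : ℕ → ℝ, (∀ᶠ k : ℕ in atTop, Tendsto (fun n : ℕ =>
        1 / (n : ℝ) * (n.choose k : ℝ) * (biasWC n k : ℝ)⁻¹ / Real.log 2) atTop (𝓝 (L k))) →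
      Tendsto L atTop (𝓝 1)) ∧
    (∀ L : ℕ → ℝ, (∀ᶠ k : ℕ in atTop, Tendsto (fun n : ℕ =>
        1 / (n : ℝ) * (n.choose k : ℝ) * (biasCW n k : ℝ)⁻¹ / Real.log 2) atTop (𝓝 (L k))) →
      Tendsto L atTop (𝓝 1)) :=
  ⟨biasWC_spec, biasCW_spec, Sharp.biasWC_sharp, CWSharp.biasCW_sharp,
    tendsto_one_of _ Sharp.biasWC_sharp, tendsto_one_of _ CWSharp.biasCW_sharp⟩

end Pool.Agent.Results.MP_fefad7_co.SharpBoth
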