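import Pool.Agent.W_MP_fefad7_co_h72.Thresholds

/-!
Waiter wins the Client-Waiter game when the bias is at least `2 k C(n, k) / n`.
-/

namespace Pool.Agent.Results.MP_fefad7_co.WaiterLinearCW

open Filter Pool.Agent.W_MP_fefad7_co_h72

theorem result :
    (∀ n k q : ℕ, 1 ≤ k → 2 * (n - 1).choose (k - 1) ≤ q + 1 →
        WaiterWinsCW q Unsat (board n k) ∅) ∧
    (∀ k : ℕ, 2 ≤ k → ∀ᶠ n : ℕ in atTop,
      1 / (2 * k * Real.log 2) ≤ 1 / (n : ℝ) * n.choose k * ((bCW n k : ℝ))⁻¹ / Real.log 2) :=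
  ⟨fun _ _ _ hk hq => waiter_cw hk hq, fun _ hk => threshold_cw_lower hk⟩

end Pool.Agent.Results.MP_fefad7_co.WaiterLinearCW
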